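import Mathlib
import Pool.Agent.H297.Beanstalk

set_option autoImplicit false

namespace Pool.Agent.Results.MP_7f8c3e_co.GiantNeverWins

open Pool.Agent.H297.Beanstalk

/-- From every odd `n > 1` Jack has a move `n' ≠ 1` after which the Giant, to move, has no winning
strategy. -/
theorem result :
    ∀ n : ℕ, Odd n → 1 < n → ∃ n', Move n n' ∧ n' ≠ 1 ∧ ¬ Wins n' := by
  intro n hn h1
  obtain ⟨r, h2, h3, h4⟩ := exists_reply (Nat.odd_iff.1 hn) h1
  exact ⟨2 * r, h2, by omega, not_wins_two_mul h3 h4⟩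

end Pool.Agent.Results.MP_7f8c3e_co.GiantNeverWins
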