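import Mathlib
import Pool.Agent.H297.Beanstalk

set_option autoImplicit false

namespace Pool.Agent.Results.MP_7f8c3e_co.OnePlayerReduction

open Pool.Agent.H297.Beanstalk

/-- For odd `n > 1`, the player to move wins Beanstalk from `n` iff `n` satisfies the one-player
reachability condition `Reach`. -/
theorem result :
    ∀ n : ℕ, Odd n → 1 < n → (Wins n ↔ Reach n) :=
  fun _ hn h1 => wins_iff (Nat.odd_iff.1 hn) h1

end Pool.Agent.Results.MP_7f8c3e_co.OnePlayerReduction
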