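import Mathlib
import Pool.Agent.H297.Beanstalk

set_option autoImplicit false

namespace Pool.Agent.Results.MP_7f8c3e_co.WinningCount

open Pool.Agent.H297.Beanstalk

open Classical in
/-- At least `X^(1/4)/10` odd numbers `1 < n ≤ X` are wins for Jack, for every `X ≥ 5`. -/
theorem result :
    ∀ X : ℕ, 5 ≤ X →
      X ≤ 10 ^ 4 * ((Finset.range (X + 1)).filter (fun n => Odd n ∧ 1 < n ∧ Wins n)).card ^ 4 := by
  intro X hX
  have hex : ∃ k, 5 * 4 ^ k ≤ X ∧ X < 5 * 4 ^ (k + 1) := by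
    have hb : ∃ m, X < 5 * 4 ^ m := ⟨X, by
      have := Nat.lt_pow_self (n := X) (a := 4) (by norm_num)
      omega⟩
    classical
    have hs := Nat.find_spec hb
    have h0 : Nat.find hb ≠ 0 := by
      intro h0
      rw [h0] at hs
      simp at hs
      omega
    refine ⟨Nat.find hb - 1, ?_, ?_⟩
    · exact not_lt.1 (Nat.find_min hb (by omega))
    · rw [Nat.sub_add_cancel (by omega)]; exact hs
  obtain ⟨k, hk1, hk2⟩ := hex
  have hsub : A k ⊆ (Finset.range (X + 1)).filter (fun n => Odd n ∧ 1 < n ∧ Wins n) := by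
    intro n hn
    rw [mem_A] at hn
    rw [Finset.mem_filter, Finset.mem_range]
    have hg := hn.2.1.odd_gt
    exact ⟨by omega, Nat.odd_iff.2 hg.1, hg.2, wins_of_reach hn.2.1⟩
  have h1 := Finset.card_le_card hsub
  have h2 := Nat.pow_le_pow_left h1 4
  have h3 := card_A_four k
  have h4 : 5 * 4 ^ (k + 1) = 20 * 4 ^ k := by ring
  calc X ≤ 20 * 4 ^ k := by omega
    _ ≤ 10 ^ 4 * (A k).card ^ 4 := h3
    _ ≤ _ := Nat.mul_le_mul_left _ h2

end Pool.Agent.Results.MP_7f8c3e_co.WinningCount
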